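import Pool.Agent.K3h54.VS.Dens
import Pool.Agent.K3h30.VD.Explicit

/-!
# One infinite set of places at which all motives over `K₀` are near to ordinary

`K₀` is a number field. For every `n : ℕ` let `K n` be a finite extension of `K₀` and `A n i` finitely
many pure motives over `K n` with multiplication by totally real or CM fields (over `K n` the `ℓ n`-adic
monodromy groups are connected, for one prime `ℓ n`). There are *no* conditions on the weights and the
Hodge numbers, and there is *no* orbit condition; the field of multiplications may be `ℚ`. For instance,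
since there are only countably many smooth projective varieties over `K₀`, the `A n i` can be the
cohomology groups of the first `n` of them, over large finite extensions `K n` of `K₀`; then **every**
smooth projective variety over `K₀` is in the class for all large `n`.

Let `V` be a motive over `K₀` (a cohomology group of a smooth projective variety) with the Hodge slopes
`h 0 ≤ h 1 ≤ ...`, and for a direct summand `R` of `V ℓ'` let `D (R) = Σ (h i) ^ 2 - Σ (ν i) ^ 2`, the
difference of the second moments of the Hodge slopes of `R` and of the slopes `ν i` of the Newton polygon.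
It is at least `Σ (h i - ν i) ^ 2`, and zero if and only if `R` is ordinary.

`IsGen (A n) T F H c` says that over `K n` the motive `V` can be built from the pieces of the `A n i` by
direct sums, tensor products, Tate twists, duals, exterior powers, direct summands and tensor factors, with
the coefficients `c`; `bnd c (t n) = Σ i, (max σ, c (i, σ)) * t n i`; `defect (A n i) γ` is the largest
possible `D` of families of polygons with the properties of the Newton polygons of `A n i` at places with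
the Frobenius element `γ` (see the landed file `VarianceDefect`).

Theorem. Let the numbers `t n i` be such that for every `n` some `γ` satisfies `defect (A n i) γ ≤ t n i` for
all `i` (by part 4 one can take for instance `t n i = hodgeVar (A n i) - 2` for all `A n i` of even weight
whose Hodge polygon is not a line; the trivial bound, attained by supersingular reduction, is `hodgeVar`).
There is **one infinite set `P` of places of `K₀`** (of lower density at least `c₀`, if `c₀` is at most the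
proportion of these `γ` divided by `[K n : K₀]`, for every `n`) such that **for all motives `V` over `K₀`**
and all `b`: if for all large `n` the motive `V` is in the class generated by the `A n i`, with coefficients
`c` such that `bnd c (t n) ≤ b`, then at almost all places in `P`
1. the sum of the `D (R j)` is at most `b`, for all `ℓ'`, all embeddings `τ`, and all decompositions of `V ℓ'`
   into direct summands `R j` with coefficients in `ℚ̄_ℓ'`; in particular `D (V) ≤ b`;
2. if `b < 1 / 2`, then `V` is ordinary;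
3. if `V` is the direct sum of motives `R j` over `K₀` with integral Frobenius polynomials, then all but at
   most `2 * b` of the `R j` are ordinary; and there is a set `B` of at most `2 * b` indices such that the
   `R j`, `j ∉ B`, are simultaneously ordinary at infinitely many places in `P`.

The proof: the places good for `n` have positive lower density (Chebotarev and the landed theorem on the
second moments), and the diagonal construction of the starting library gives `P`.
-/

set_option autoImplicit false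

namespace Pool.Agent.Results.MP_17d720_ag.CommonPlacesNearOrdinary

open NumberField IsDedekindDomain Polynomial Filter Topology
open Pool.Agent.W401.Cheb Pool.Agent.W528.Ord Pool.Agent.K3h30.NH Pool.Agent.K3h30.OC
open Pool.Agent.K3h30.VD Pool.Agent.W850.Ord Pool.Agent.K3h54.VS
open Pool.Agent.R915.Ord (Piece)

/-- The place `v₀` has degree one, and for every prime `ℓ'` different from the residue characteristic
`p = N v₀`, every Frobenius element `γ` at `v₀`, every embedding `τ` of the field of algebraic numbers and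
every decomposition (up to semisimplification) of `M ℓ'` into representations `R j` with coefficients in
`ℚ̄_ℓ'` whose Newton polygons lie on or above the polygons with the slopes `H' j` (Mazur's inequality),
where the sum of the `H' j` is `H`: the differences `d j` of the second moments of the Hodge slopes `H' j`
and of the slopes of `R j` are nonnegative, their sum is at most `t`, and the sum of the squares of the
differences of the slopes is at most `d j` (`HasDist`). -/
def AllSummandsWithin {K₀ : Type} [Field K₀] [NumberField K₀] {r : ℕ}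
    (M : ∀ (ℓ' : ℕ) [Fact ℓ'.Prime], GK K₀ →* Matrix.GeneralLinearGroup (Fin r) ℚ_[ℓ'])
    (H : Multiset ℕ) (t : ℝ) (v₀ : HeightOneSpectrum (𝓞 K₀)) : Prop :=
  ∃ (p : ℕ) (_ : Fact p.Prime), Ideal.absNorm v₀.asIdeal = p ∧
    ∀ (ℓ' : ℕ) [Fact ℓ'.Prime], p ≠ ℓ' → ∀ γ : GK K₀, IsFrob v₀ γ →
      ∀ (τ : algebraicClosure ℚ (PadicAlgCl ℓ') →+* PadicAlgCl p) (m : ℕ) (r' : Fin m → ℕ)
        (R : ∀ j : Fin m, GK K₀ →* Matrix.GeneralLinearGroup (Fin (r' j)) (PadicAlgCl ℓ'))
        (H' : Fin m → Multiset ℕ), (∀ g : GK K₀, cpQ (M ℓ' g) = ∏ j, cp (R j g)) → ∑ j, H' j = H →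
          (∀ j, LiesAboveTau (cp (R j γ⁻¹)) τ (H' j)) →
            ∃ d : Fin m → ℝ, (∀ j, 0 ≤ d j) ∧ ∑ j, d j ≤ t ∧
              ∀ j, HasDist (cp (R j γ⁻¹)) τ (H' j) (d j)

/-- `v₀` has degree one, and for every prime `ℓ'` different from the residue characteristic `p = N v₀`
and every embedding `τ` of the field of algebraic numbers the Newton polygon of `V ℓ'` at `v₀` has the
slopes `H`: Newton polygon = Hodge polygon. -/
def Ordinary {K₀ : Type} [Field K₀] [NumberField K₀] {r : ℕ}
    (V : ∀ (ℓ' : ℕ) [Fact ℓ'.Prime], GK K₀ →* Matrix.GeneralLinearGroup (Fin r) ℚ_[ℓ'])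
    (H : Multiset ℕ) (v₀ : HeightOneSpectrum (𝓞 K₀)) : Prop :=
  ∃ (p : ℕ) (_ : Fact p.Prime), Ideal.absNorm v₀.asIdeal = p ∧
    ∀ (ℓ' : ℕ) [Fact ℓ'.Prime], p ≠ ℓ' → ∀ γ : GK K₀, IsFrob v₀ γ →
      ∀ τ : algebraicClosure ℚ (PadicAlgCl ℓ') →+* PadicAlgCl p,
        NewtonTau (V ℓ' γ⁻¹ : Matrix (Fin r) (Fin r) ℚ_[ℓ']) τ H

/-- The place `v₀` has degree one and lies below a place `v` of `K` which is good for the `A i`, with a
Frobenius element `γ` such that `defect (A i) γ ≤ t i` for all `i`. -/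
def BelowGood (K₀ : Type) {K : Type} [Field K₀] [NumberField K₀] [Field K] [NumberField K] [Algebra K₀ K]
    {ℓ : ℕ} [Fact ℓ.Prime] {ι : Type} [Fintype ι] (A : ι → MotSystem K ℓ) (S : Finset ℕ) (t : ι → ℝ)
    (v₀ : HeightOneSpectrum (𝓞 K₀)) : Prop :=
  ∃ v : HeightOneSpectrum (𝓞 K),
    v.asIdeal.comap (algebraMap (𝓞 K₀) (𝓞 K)) = v₀.asIdeal ∧ GoodAt A S t v

theorem close_mono {p : ℕ} {F : ℤ[X]} {H : Multiset ℕ} {t t' : ℝ} (h : CloseSlopes p F H t)
    (ht : t ≤ t') : CloseSlopes p F H t' := by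
  obtain ⟨hp, ν, h1, h2, h3, h4, h5, h6, h7⟩ := h
  exact ⟨hp, ν, h1, h2, h3, h4, h5, h6, h7.trans ht⟩

theorem result (K₀ : Type) [Field K₀] [NumberField K₀]
    -- the fields of definition and the generators
    (K : ℕ → Type) [∀ n, Field (K n)] [∀ n, NumberField (K n)] [∀ n, Algebra K₀ (K n)]
    (ℓ : ℕ → ℕ) [∀ n, Fact (ℓ n).Prime] (ι : ℕ → Type) [∀ n, Fintype (ι n)]
    (A : ∀ n, ι n → MotSystem (K n) (ℓ n)) (χ : ∀ n, GK (K n) →* (PadicAlgCl (ℓ n))ˣ)
    (S : ℕ → Finset ℕ) (hA : ∀ n i, (A n i).IsMotive (χ n) (S n))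
    -- bounds for the defect numbers
    (t : ∀ n, ι n → ℝ) (hγ : ∀ n, ∃ γ : GK (K n), ∀ i, defect (A n i) γ ≤ t n i)
    (c₀ : ℝ) (hc₀ : ∀ n, c₀ ≤ share (A n) (t n) / (Module.finrank K₀ (K n) : ℝ)) :
    (∃ P : Set (HeightOneSpectrum (𝓞 K₀)), P.Infinite ∧ c₀ ≤ lowerDensity (fun v₀ => v₀ ∈ P) ∧
      -- 1., 2. all motives `V`
      (∀ (T : Finset ℕ) (r : ℕ)
        (V : ∀ (ℓ' : ℕ) [Fact ℓ'.Prime], GK K₀ →* Matrix.GeneralLinearGroup (Fin r) ℚ_[ℓ'])
        (F : HeightOneSpectrum (𝓞 K₀) → ℤ[X]) (H : Multiset ℕ) (b : ℝ), StrictlyCompatible T V F →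
        (∀ᶠ n in atTop, ∃ c, IsGen (A n) T F H c ∧ bnd c (t n) ≤ b) →
          {v₀ ∈ P | ¬ AllSummandsWithin V H b v₀}.Finite ∧
          (b < 1 / 2 → {v₀ ∈ P | ¬ Ordinary V H v₀}.Finite)) ∧
      -- 3. direct sums of motives with integral Frobenius polynomials
      ∀ (T : Finset ℕ) (m : ℕ) (r : Fin m → ℕ) (R : ∀ (j : Fin m) (ℓ' : ℕ) [Fact ℓ'.Prime],
          GK K₀ →* Matrix.GeneralLinearGroup (Fin (r j)) ℚ_[ℓ'])
        (F : Fin m → HeightOneSpectrum (𝓞 K₀) → ℤ[X]) (H' : Fin m → Multiset ℕ) (b : ℝ),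
        (∀ j, StrictlyCompatible T (R j) (F j)) →
        (∀ j v₀, MultSystem.IsDeg1 T v₀ →
          (F j v₀).Monic ∧ MazurSlopes (Ideal.absNorm v₀.asIdeal) (F j v₀) (H' j)) →
        (∀ᶠ n in atTop, ∃ c, IsGen (A n) T (fun v₀ => ∏ j, F j v₀) (∑ j, H' j) c ∧
          bnd c (t n) ≤ b) →
        {v₀ ∈ P | ¬ (Set.ncard {j | ¬ Ordinary (R j) (H' j) v₀} : ℝ) ≤ 2 * b}.Finite ∧
        ∃ B : Set (Fin m), (B.ncard : ℝ) ≤ 2 * b ∧
          {v₀ ∈ P | ∀ j ∉ B, Ordinary (R j) (H' j) v₀}.Infinite) ∧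
    -- 4. explicit bounds for the defect numbers, for all `γ`
    ∀ (n : ℕ) (i : ι n) (γ : GK (K n)), (∃ σ k, (A n i).Vertex σ k) →
      (Even (A n i).w → defect (A n i) γ ≤ hodgeVar (A n i) - 2) ∧
      (Odd (A n i).w → defect (A n i) γ ≤
        hodgeVar (A n i) - ((Module.finrank ℚ (A n i).E : ℝ) + 1) / 4) ∧
      (Odd (A n i).w → 4 ≤ (A n i).n → defect (A n i) γ ≤ hodgeVar (A n i) - 1) := by
  have hd : ∀ n, (0 : ℝ) < (Module.finrank K₀ (K n) : ℝ) := fun n => by
    have : FiniteDimensional K₀ (K n) := Module.Finite.of_restrictScalars_finite ℚ K₀ (K n)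
    exact_mod_cast Module.finrank_pos
  have hlow : ∀ n, share (A n) (t n) / (Module.finrank K₀ (K n) : ℝ) ≤
      lowerDensity (BelowGood K₀ (A n) (S n) (t n)) := fun n =>
    lower_goodAt (K₀ := K₀) (A n) (χ n) (S n) (hA n) (t n)
  have hpos : ∀ n, 0 < share (A n) (t n) / (Module.finrank K₀ (K n) : ℝ) := fun n =>
    div_pos (share_pos (A n) (hγ n)) (hd n)
  obtain ⟨P, hinf, hdens, hfin⟩ := diagonal (fun n => BelowGood K₀ (A n) (S n) (t n))
    (fun n => lt_of_lt_of_le (hpos n) (hlow n)) c₀ (fun n => (hc₀ n).trans (hlow n))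
  -- the bound at the good places
  have hgood : ∀ (T : Finset ℕ) (F : HeightOneSpectrum (𝓞 K₀) → ℤ[X]) (H : Multiset ℕ) (b : ℝ),
      (∀ᶠ n in atTop, ∃ c, IsGen (A n) T F H c ∧ bnd c (t n) ≤ b) →
      ∃ E : Set (HeightOneSpectrum (𝓞 K₀)), E.Finite ∧ ∀ v₀ ∈ P, v₀ ∉ E →
        MultSystem.IsDeg1 T v₀ ∧ CloseSlopes (Ideal.absNorm v₀.asIdeal) (F v₀) H b := by
    intro T F H b hev
    obtain ⟨n₀, hn₀⟩ := eventually_atTop.mp hev
    refine ⟨{v₀ | v₀ ∈ P ∧ ∀ n, n₀ ≤ n → ¬ BelowGood K₀ (A n) (S n) (t n) v₀} ∪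
      {v₀ | Ideal.absNorm v₀.asIdeal ∈ T}, (hfin n₀).union (finite_norm_mem (K := K₀) T), ?_⟩
    intro v₀ hv hE
    rw [Set.mem_union, not_or] at hE
    obtain ⟨h1, h2⟩ := hE
    have h2' : Ideal.absNorm v₀.asIdeal ∉ T := h2
    obtain ⟨n, hn, hb⟩ : ∃ n, n₀ ≤ n ∧ BelowGood K₀ (A n) (S n) (t n) v₀ := by
      by_contra h3
      push Not at h3
      exact h1 ⟨hv, h3⟩
    obtain ⟨v, h0, hvg, γ, hγ', ht⟩ := hb
    obtain ⟨c, hc, hcb⟩ := hn₀ n hn
    have e := under_norm v hvg.1.1 v₀ h0
    have hT' : Ideal.absNorm v.asIdeal ∉ T := by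
      rw [← e]
      exact h2'
    exact ⟨⟨e ▸ hvg.1.1, h2'⟩, close_mono (close_good (A n) (χ n) (S n) (hA n) hc hvg hT' hγ' v₀ h0 ht)
      hcb⟩
  refine ⟨⟨P, hinf, hdens, ?_, ?_⟩, ?_⟩
  · intro T r V F H b hV hev
    obtain ⟨E, hE, hgE⟩ := hgood T F H b hev
    have key : ∀ v₀ ∈ P, v₀ ∉ E → AllSummandsWithin V H b v₀ ∧ (b < 1 / 2 → Ordinary V H v₀) := by
      intro v₀ hv hvE
      obtain ⟨hv0, hN⟩ := hgE v₀ hv hvE
      have hN' := hN
      obtain ⟨hp, hcl⟩ := hN
      refine ⟨⟨Ideal.absNorm v₀.asIdeal, hp, rfl, ?_⟩, fun hb =>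
        ⟨Ideal.absNorm v₀.asIdeal, hp, rfl, ?_⟩⟩
      · intro ℓ' _ hne γ₀ hγ₀ τ m r' R H' hsum hH hM
        have h1 := closeTau_of _ τ _ _ (F v₀) (hV ℓ' v₀ hv0 hne γ₀ hγ₀) hN'
        exact hasDist_parts (cpQ (V ℓ' γ₀⁻¹)) (fun j => cp (R j γ₀⁻¹))
          (fun j => (Matrix.charpoly_monic _).ne_zero) τ H H' _ h1 (hsum γ₀⁻¹) hH hM
      · intro ℓ' _ hne γ₀ hγ₀ τ
        exact newtonTau_of _ τ _ (F v₀) (hV ℓ' v₀ hv0 hne γ₀ hγ₀) ⟨hp, close_half hcl hb⟩
    refine ⟨hE.subset ?_, fun hb => hE.subset ?_⟩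
    · rintro v₀ ⟨hv, hno⟩
      by_contra hvE
      exact hno (key v₀ hv hvE).1
    · rintro v₀ ⟨hv, hno⟩
      by_contra hvE
      exact hno ((key v₀ hv hvE).2 hb)
  · intro T m r R F H' b hV hM hev
    obtain ⟨E, hE, hgE⟩ := hgood T _ _ b hev
    have key : ∀ v₀ ∈ P, v₀ ∉ E → (Set.ncard {j | ¬ Ordinary (R j) (H' j) v₀} : ℝ) ≤ 2 * b := by
      intro v₀ hv hvE
      obtain ⟨hv0, hN⟩ := hgE v₀ hv hvE
      have h1 := few_bad (fun j => (hM j v₀ hv0).1.ne_zero) hN (fun j => (hM j v₀ hv0).2)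
      refine le_trans ?_ h1
      rw [Nat.cast_le]
      apply Set.ncard_le_ncard _ (Set.toFinite _)
      intro j hj hNS
      apply hj
      obtain ⟨hp, -⟩ := hN
      refine ⟨Ideal.absNorm v₀.asIdeal, hp, rfl, ?_⟩
      intro ℓ' _ hne γ₀ hγ₀ τ
      exact newtonTau_of _ τ _ (F j v₀) (hV j ℓ' v₀ hv0 hne γ₀ hγ₀) hNS
    refine ⟨hE.subset ?_, ?_⟩
    · rintro v₀ ⟨hv, hno⟩
      by_contra hvE
      exact hno (key v₀ hv hvE)
    · classical
      have hinf' : (P \ E).Infinite := hinf.diff hE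
      haveI : Infinite ↥(P \ E) := hinf'.to_subtype
      obtain ⟨B, hB⟩ := Finite.exists_infinite_fiber
        (fun v₀ : ↥(P \ E) => {j | ¬ Ordinary (R j) (H' j) v₀.1})
      have hB' := (Set.infinite_coe_iff.1 hB).image Subtype.val_injective.injOn
      refine ⟨B, ?_, hB'.mono ?_⟩
      · obtain ⟨_, ⟨v₀, hv₀, rfl⟩⟩ := hB'.nonempty
        have h1 : {j | ¬ Ordinary (R j) (H' j) v₀.1} = B := hv₀
        rw [← h1]
        exact key v₀.1 v₀.2.1 v₀.2.2
      · rintro _ ⟨v₀, hv₀, rfl⟩
        have h1 : {j | ¬ Ordinary (R j) (H' j) v₀.1} = B := hv₀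
        refine ⟨v₀.2.1, fun j hj => ?_⟩
        by_contra hno
        apply hj
        rw [← h1]
        exact hno
  · intro n i γ hex
    exact ⟨fun hw => defect_even (hA n i).isHodge γ hex hw, fun hw => defect_odd γ hex hw,
      fun hw hn => defect_four γ hex hw hn⟩

end Pool.Agent.Results.MP_17d720_ag.CommonPlacesNearOrdinary
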