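import Pool.Agent.K3h43.ORD.Main

/-!
# Ordinary reduction and Schur functors of motives

`C` is a `ℚ`-linear symmetric monoidal category with an additive symmetric monoidal functor `R` to
finite-dimensional super vector spaces over a field `K`, and `N`, `T` are gradings of this functor by the
rational numbers, natural and compatible with the tensor product; each is given by the operator of
multiplication by the degree (`SlopeOp`). The example: `C` consists of motives over a number field, with good
reduction at a place `v`, perhaps with coefficients in a number field; `R` is the crystalline cohomology of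
the reduction, over a large extension of the completion at `v`; the grading `N` is the one by the slopes of
Frobenius, and `T` is a splitting of the Hodge filtration which is compatible with the tensor product (for
example that of Wintenberger), so that the slopes of `T` are the Hodge slopes. Then `Ordinary N T X` says that
the Newton polygon of `X` at `v` is the Hodge polygon, that is, for almost all `v`, `X` has ordinary reduction
at `v`, and `NewtonAboveHodge N T X` is the theorem of Mazur.

Let `M` be an object with even or odd realisation (for example a direct summand of some `h^i(X)`) and `P` a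
direct summand of the `n`-th tensor power of `M` cut out by an idempotent of the group algebra of the symmetric
group, for example a Schur functor of `M`, like the symmetric power `Sym^n M` or the exterior power `Λ^n M`.

Theorem. There is a rational number `α ≥ 0`, which is positive if `P` has two different Hodge slopes, such
that for all gradings `N` and `T` with the same sum of slopes on `M` (that is, for all places),
`D(P) = α D(M)`, where `D = ∑ h_i ^ 2 - ∑ ν_i ^ 2` for the slopes `h_i` of `T` and `ν_i` of `N`.
If `M` is ordinary then `P` is. If `P` is ordinary and has two different Hodge slopes, and the Newton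
polygon of `M` is above its Hodge polygon, then `M` is ordinary.

So `M` and `P` have ordinary reduction at the same places, and if `P` is close to ordinary then so is `M`.
The exception cannot be omitted: a power of the determinant of `M` is ordinary at all places.

Proof. Let `e` be the projector to `P` on the realisation of the tensor power `M^n`. The form
`B(z, z') = Tr(e d(z) d(z'))` on `gl(R(M))`, where `d(z)` is the derivation of `R(M)^n` attached to `z`, is
invariant under conjugation. So on diagonal operators it is `α Tr(z z') + β Tr(z) Tr(z')`. We have
`2 α = Tr(e d(z)^2) ≥ 0` for the difference `z` of two commuting projectors of rank one, as `d(z)` is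
diagonal with integral eigenvalues; and if `α = 0` then `e d(z) = 0`, so all differences of such projectors
act by zero on `P`, and all diagonal operators by scalars. Finally the sum of the squares of the slopes of
`P` is `B(z, z)` for the slope operator `z` of `M`, and `D(M) ≥ ∑ (h_i - ν_i)^2` if the Newton
polygon is above the Hodge polygon.
-/

set_option autoImplicit false

open CategoryTheory MonoidalCategory

namespace Pool.Agent.Results.MP_17d720_ag.SchurFunctors

open Pool.Agent.Y112.SR Pool.Agent.Y112.SC Pool.Agent.K3h43.ORD

universe v u w

section

variable {C : Type u} [Category.{v} C] [Preadditive C] [MonoidalCategory C] [SymmetricCategory C]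
  {K : Type w} [Field K] {R : SuperRealisation C K}

/-- The number `α` satisfies `D(P) = α D(M)` for all gradings `N` and `T` with the same sum of slopes on
`M`, where `D = ∑ h_i ^ 2 - ∑ ν_i ^ 2` for the slopes `h_i` of `T` and `ν_i` of `N`. -/
def Moment (R : SuperRealisation C K) (M P : C) (α : ℚ) : Prop :=
  ∀ (N T : SlopeOp R) (ν h : Fin (Module.finrank K (R.H.obj M)) → ℚ)
    (ν' h' : Fin (Module.finrank K (R.H.obj P)) → ℚ), HasSlopes N M ν → HasSlopes T M h →
    HasSlopes N P ν' → HasSlopes T P h' → ∑ i, h i = ∑ i, ν i →
    ∑ i, h' i ^ 2 - ∑ i, ν' i ^ 2 = α * (∑ i, h i ^ 2 - ∑ i, ν i ^ 2)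

end

theorem result {C : Type u} [Category.{v} C] [Preadditive C] [Linear ℚ C] [MonoidalCategory C]
    [SymmetricCategory C] {K : Type w} [Field K] (R : SuperRealisation C K) (M P : C) (n : ℕ)
    (hM : R.par M = 𝟙 _ ∨ R.par M = -𝟙 _) (hP : IsSchurSummand M P n) :
    (∃ α : ℚ, 0 ≤ α ∧ (∀ T : SlopeOp R, TwoSlopes T P → 0 < α) ∧ Moment R M P α) ∧
    ∀ N T : SlopeOp R, (Ordinary N T M → Ordinary N T P) ∧
      (NewtonAboveHodge N T M → TwoSlopes T P → (Ordinary N T P ↔ Ordinary N T M)) := by
  obtain ⟨α, h0, h1, h2, h3, h4⟩ := schur (R := R) hM hP
  exact ⟨⟨α, h0, h1, h2⟩, fun N T => ⟨h3 N T, fun hN hT => ⟨h4 N T hN hT, h3 N T⟩⟩⟩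

end Pool.Agent.Results.MP_17d720_ag.SchurFunctors
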