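import Pool.Agent.K3h30.OC.Tau

/-!
# Ordinary reduction and tensor factors: Kuga-Satake varieties, abelian varieties of Mumford's type, ...

`K₀` is a number field. The generators: for every `n : ℕ` a finite extension `K n` of `K₀` and finitely
many pure motives `A n i` over `K n` with multiplication by totally real or CM fields, each with its own
finite set `S n i` of bad residue characteristics (over `K n` the `ℓ n`-adic monodromy groups are
connected, for one prime `ℓ n`).

Orbit condition: for every `n` there is an element `γ` of the Galois group of `K n` which is
`Admissible` for all `A n i` (the identity will do if the defects are at most two, as in the examples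
below).

The class `Generated (A n) T` is the smallest class of motives over `K n` which contains the pieces of
the `A n i` and which is closed under direct sums, tensor products, duals, Tate twists, direct summands
and **tensor factors**: if `U ⊗ U'` is in the class and `U' ≠ 0`, then `U` is in the class. (Mazur's
inequality is assumed for direct summands and their complements and for tensor factors, outside the
finite set `T` of residue characteristics: the Newton polygon lies on or above the Hodge polygon. A
motive enters only through its Frobenius eigenvalues at the places of degree one, `Obj`.)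

Let `X` be a smooth projective variety over `K₀` (or a finite set of such varieties), `V i ℓ'` its
cohomology groups (`i` in a finite set `ν`) and `H i` their Hodge slopes. The `V i` are strictly
compatible outside a finite set `T` of residue characteristics, which depends on `X`. For almost all
places `v₀` the reduction of `X` is good, and it is ordinary in the sense of Bloch and Kato if and only
if for all `i` the Newton polygon of `V i` at `v₀` is the Hodge polygon (`Ordinary`).

Theorem.
1. If the `V i` are potentially in the class (`IsGenerated`: over `K n`, for one `n`), then the places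
   of `K₀` at which `X` has ordinary reduction have positive lower density: at least the proportion of
   the admissible elements divided by `[K n : K₀]`.
2. There is *one* infinite set `P` of places of `K₀` which works for *all* `X`: if the `V i` are in the
   class for all large `n`, then `X` has ordinary reduction at all but finitely many places in `P`. The
   lower density of `P` is at least `c`, if `c` is at most the proportion of the admissible elements
   divided by `[K n : K₀]`, for every `n`. (Density one, if all fields `K n` are `K₀` and all elements
   are admissible.)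

Examples. Let the `A n` enumerate the motives of K3 type over finite extensions of `K₀`: weight `2`,
with multiplication by a totally real or CM field `E`, and with `h^{2,0} = 1` for one embedding of `E`
and `h^{2,0} = 0` for all other embeddings, up to complex conjugation; together with the `H¹` of
elliptic curves, of abelian surfaces, of abelian varieties of CM type and of abelian varieties with
multiplication by a CM field of signature `(n, 1)` at one place and definite at the others. Here all
elements are admissible, and the theorem applies to

* the Kuga-Satake varieties of all motives of K3 type, for instance of all K3 surfaces, and all abelian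
  varieties `B` for which `H¹(B) ⊗ H¹(B)` (or only `W ⊗ W^∨` for all isotypic parts `W` of `H¹(B)`)
  is in the tensor category of motives of K3 type;
* the abelian fourfolds of Mumford's type, and all abelian varieties for which all simple factors of
  the adjoint Mumford-Tate group are of type `A_1` with one noncompact real place, for instance all
  abelian varieties parametrised by Shimura curves: the adjoint representations are motives of K3 type
  of rank three with multiplication by a totally real field, and for the isotypic parts `W` of
  `H¹(B)` the motive `W ⊗ W^∨` is a sum of tensor products of their pieces;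
* all products of these varieties, and all varieties dominated by them.

The tensor factors are new compared with the starting file `MP_17d720_ag.CommonOrdinaryReduction`,
which has direct summands of tensor products only; the generators and their ordinary primes, and the
construction of the set `P`, are in the starting files (`Pool.Agent.W528`, `Pool.Agent.W850`).

The proof for tensor factors: for a multiset `N` of positive real numbers let
`g_r (N) = ∏ max (r, x)`. Mazur's inequality says that `g_r (N) ≤ g_r (M)`, for all `r > 0`, for the
absolute values `N` of the Frobenius eigenvalues and the absolute values `M` prescribed by the Hodge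
slopes. As `g_r (N ⊗ N') = ∏ c ^ |N| g_{r / c} (N)`, the product over `c ∈ N'`, the equality for the
tensor product forces the equality for the factors, and `N` is determined by the `g_r (N)`.
-/

set_option autoImplicit false

namespace Pool.Agent.Results.MP_17d720_ag.TensorFactors

open NumberField IsDedekindDomain Polynomial Filter Topology
open Pool.Agent.W401.Cheb Pool.Agent.W528.Ord Pool.Agent.K3h30.OC

/-- `v₀` has degree one, and for every prime `ℓ'` different from the residue characteristic `p = N v₀`
and every embedding `τ` of the field of algebraic numbers the Newton polygon of `V ℓ'` at `v₀` has the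
slopes `H`. -/
def Ordinary {K₀ : Type} [Field K₀] [NumberField K₀] {r : ℕ}
    (V : ∀ (ℓ' : ℕ) [Fact ℓ'.Prime], GK K₀ →* Matrix.GeneralLinearGroup (Fin r) ℚ_[ℓ'])
    (H : Multiset ℕ) (v₀ : HeightOneSpectrum (𝓞 K₀)) : Prop :=
  ∃ (p : ℕ) (_ : Fact p.Prime), Ideal.absNorm v₀.asIdeal = p ∧
    ∀ (ℓ' : ℕ) [Fact ℓ'.Prime], p ≠ ℓ' → ∀ γ : GK K₀, IsFrob v₀ γ →
      ∀ τ : algebraicClosure ℚ (PadicAlgCl ℓ') →+* PadicAlgCl p,
        NewtonTau (V ℓ' γ⁻¹ : Matrix (Fin r) (Fin r) ℚ_[ℓ']) τ H

theorem ordinary_of {K₀ : Type} [Field K₀] [NumberField K₀] (T : Finset ℕ) {r : ℕ}
    (V : ∀ (ℓ' : ℕ) [Fact ℓ'.Prime], GK K₀ →* Matrix.GeneralLinearGroup (Fin r) ℚ_[ℓ'])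
    (F : HeightOneSpectrum (𝓞 K₀) → Polynomial ℤ) (H : Multiset ℕ) (hV : StrictlyCompatible T V F)
    (v₀ : HeightOneSpectrum (𝓞 K₀)) (hv : MultSystem.IsDeg1 T v₀)
    (hN : NewtonSlopes (Ideal.absNorm v₀.asIdeal) (F v₀) H) : Ordinary V H v₀ := by
  have hN' := hN
  obtain ⟨hp, -⟩ := hN
  refine ⟨Ideal.absNorm v₀.asIdeal, hp, rfl, ?_⟩
  intro ℓ' _ hne γ hγ τ
  exact newtonTau_of _ τ _ (F v₀) (hV ℓ' v₀ hv hne γ hγ) hN'

theorem result (K₀ : Type) [Field K₀] [NumberField K₀]
    -- the fields of definition and the generators
    (K : ℕ → Type) [∀ n, Field (K n)] [∀ n, NumberField (K n)] [∀ n, Algebra K₀ (K n)]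
    (ℓ : ℕ → ℕ) [∀ n, Fact (ℓ n).Prime] (ι : ℕ → Type) [∀ n, Fintype (ι n)]
    (A : ∀ n, ι n → MotSystem (K n) (ℓ n)) (χ : ∀ n, GK (K n) →* (PadicAlgCl (ℓ n))ˣ)
    (S : ∀ n, ι n → Finset ℕ) (hA : ∀ n i, (A n i).IsMotive (χ n) (S n i))
    -- the orbit condition
    (hγ : ∀ n, ∃ γ : GK (K n), ∀ i, (A n i).Admissible γ)
    (c : ℝ) (hc : ∀ n, c ≤ MotSystem.admProportion (A n) / (Module.finrank K₀ (K n) : ℝ)) :
    ∃ P : Set (HeightOneSpectrum (𝓞 K₀)), P.Infinite ∧ c ≤ lowerDensity (fun v₀ => v₀ ∈ P) ∧
      -- all varieties `X`, with the cohomology groups `V i`
      ∀ (T : Finset ℕ) (ν : Type) [Finite ν] (r : ν → ℕ)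
        (V : ∀ (i : ν) (ℓ' : ℕ) [Fact ℓ'.Prime], GK K₀ →* Matrix.GeneralLinearGroup (Fin (r i)) ℚ_[ℓ'])
        (F : ν → HeightOneSpectrum (𝓞 K₀) → ℤ[X]) (H : ν → Multiset ℕ),
        (∀ i, StrictlyCompatible T (V i) (F i)) →
        -- positive lower density
        (∀ n, (∀ i, IsGenerated (A n) T (F i) (H i)) →
          0 < MotSystem.admProportion (A n) / (Module.finrank K₀ (K n) : ℝ) ∧
          MotSystem.admProportion (A n) / (Module.finrank K₀ (K n) : ℝ) ≤
            lowerDensity (fun v₀ : HeightOneSpectrum (𝓞 K₀) => ∀ i, Ordinary (V i) (H i) v₀)) ∧
        -- the common set of places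
        ((∀ i, ∀ᶠ n in atTop, IsGenerated (A n) T (F i) (H i)) →
          {v₀ ∈ P | ¬ ∀ i, Ordinary (V i) (H i) v₀}.Finite) := by
  obtain ⟨P, h1, h2, h3⟩ := main K₀ K ℓ ι A χ S hA hγ c hc
  exact ⟨P, h1, h2, fun T ν _ r V F H hV => h3 T ν F H
    (fun v₀ => ∀ i, Ordinary (V i) (H i) v₀) fun v₀ hv hN i =>
      ordinary_of T (V i) (F i) (H i) (hV i) v₀ hv (hN i)⟩

end Pool.Agent.Results.MP_17d720_ag.TensorFactors
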