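import Pool.Agent.K3h30.VD.Bound
import Pool.Agent.K3h30.VD.Explicit

/-!
# How far is the reduction from being ordinary? Second moments of Newton polygons, without an orbit condition

`K₀` is a number field, `K` a finite extension, and `A i` finitely many pure motives over `K` with
multiplication by totally real or CM fields (over `K` the `ℓ`-adic monodromy groups are connected, for
one prime `ℓ`). There are *no* conditions on the weights and the Hodge numbers, and there is *no* orbit
condition; the field of multiplications may be `ℚ`. For instance, the `A i` can be the cohomology groups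
of any smooth projective varieties, over a large finite extension `K` of `K₀`.

Let `V` be a cohomology group of a smooth projective variety `X` over `K₀`, with the Hodge slopes
`h 0 ≤ h 1 ≤ ...`, and let `ν 0 ≤ ν 1 ≤ ...` be the slopes of the Newton polygon at a place `v₀`. The
difference of the second moments `Σ (h i) ^ 2 - Σ (ν i) ^ 2` measures how far `V` is from being
ordinary at `v₀`: it is at least `Σ (h i - ν i) ^ 2`, and it is zero if and only if the Newton polygon
is the Hodge polygon. `Within V H t v₀` says that it is at most `t` (for all `ℓ'` and all embeddings of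
the field of algebraic numbers).

Hypothesis on `V` (`InClass A V H c`): over `K` it can be built from the pieces of the `A i` by direct
sums, tensor products, Tate twists, duals, exterior powers, direct summands and tensor factors
(`Gen A T U c`). The function `c` on the pieces counts with which weight they are used: it is additive for
direct sums, `c (U ⊗ V) = rank V * c U + rank U * c V`, unchanged for twists, duals and direct summands,
multiplied by `(rank U - 2).choose (k - 1)` for the `k`-th exterior power, and divided by the rank of the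
complementary factor for tensor factors. Every `V` in the class `Generated` of the file `TensorFactors`
has such a function `c` (part 6).

The *defect number* `defect (A i) γ`, for `γ` in the Galois group of `K`, depends only on the Hodge
polygons of `A i` and on the action of `γ` on the embeddings of the field of multiplications: it is the
largest difference of the second moments for the families of polygons `ν σ` (`IsFamily`) which lie on or
above the Hodge polygons, have the same end points and integral vertices, are invariant under `γ`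
and self-dual, and for which the sum over `σ` of the values at `k`, rounded up, is strictly smaller than
`w k [E : ℚ] / 2`, for `0 < k < n`.

Theorem.

1. There is a set `G` of places of `K` of density one such that at the places in `G` the Newton polygons
   of the `A i` form such families, for all Frobenius elements `γ`; and for every `V` in the class, for
   all but finitely many `v` in `G`, at the place of `K₀` below `v` the difference of the second moments is
   at most `bnd c (defect (A i) γ) = Σ i, (max σ, c (i, σ)) * defect (A i) γ`.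
2. For every `t` there is a set `P` of places of `K₀`, of lower density at least the proportion of the
   `γ` with `defect (A i) γ ≤ t i` for all `i`, divided by `[K : K₀]`, such that for every `V` in the
   class the difference of the second moments is at most `bnd c t`, for all but finitely many places in
   `P`.
3. If the difference is smaller than `1 / 2`, then `V` is ordinary at `v₀`.
4. If `γ` satisfies the orbit condition of the starting files (`Admissible`), the defect number is zero;
   so the theorem on ordinary reduction for the class is the special case `t = 0` of part 2.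
5. Explicit bounds. Let `hodgeVar A = Σ σ, Σ i, (h σ i - w / 2) ^ 2`, and suppose that not all Hodge
   polygons of `A` are straight lines. Then `defect A γ ≤ hodgeVar A - 2` if the weight is even, and
   `defect A γ ≤ hodgeVar A - ([E : ℚ] + 1) / 4` if it is odd; if it is odd and the rank over `E` is at
   least four, `defect A γ ≤ hodgeVar A - 1`.

Examples. (a) Let `B` be an abelian variety over `K₀` of dimension `g ≥ 2` and `A = H¹ (B)`, `E = ℚ`:
`hodgeVar = g / 2`, so the defect number is at most `(g - 2) / 2`, and for `H^k (B)` the difference of the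
second moments is at most `(2 g - 2).choose (k - 1) * (g - 2) / 2`, at a set of places of `K` of density
one. (`g = 2`: Ogus.) The same for all varieties dominated by powers of `B`, with other constants.
(b) Let `A` be of weight two, with `h^{2,0} = 1` for `t` embeddings of the totally real field `E` and
`h^{2,0} = 0` for the others. Then `hodgeVar = 2 t`, and the defect number is at most `2 (t - 1)`; the
orbit condition may fail if `t > 1`. (c) `H³` of a Calabi-Yau threefold: `hodgeVar = (9 + h^{2,1}) / 2`.

The proof. At almost all places the Newton polygons of the `A i` form families (Chebotarev, the integral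
valuations of the coefficients, duality, and the density theorem of the starting files on the average
valuations). The difference of the second moments is additive for direct sums and a derivation for tensor
products; by Mazur's inequality and the majorisation `Σ (h - ν) ^ 2 ≤ Σ h ^ 2 - Σ ν ^ 2` it is
nonnegative for direct summands and tensor factors. The gap `1 / 2`: by convexity of the piecewise
linear interpolation of `x ^ 2` the difference is at least the sum of the `θ (1 - θ)` over the
fractional parts `θ` of the slopes.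
-/

set_option autoImplicit false

namespace Pool.Agent.Results.MP_17d720_ag.VarianceDefect

open NumberField IsDedekindDomain Polynomial Filter Topology
open Pool.Agent.W401.Cheb Pool.Agent.W528.Ord Pool.Agent.K3h30.NH Pool.Agent.K3h30.OC
open Pool.Agent.K3h30.VD Pool.Agent.W850.Ord
open Pool.Agent.R915.Ord (Piece)

/-- The place `v₀` has degree one, and for every prime `ℓ'` different from the residue characteristic
`p = N v₀` and every embedding `τ` of the field of algebraic numbers, the slopes `ν` of the Newton
polygon of `V ℓ'` at `v₀` and the members `h` of `H` (both in increasing order) satisfy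
`Σ (h i - ν i) ^ 2 ≤ Σ (h i) ^ 2 - Σ (ν i) ^ 2 ≤ t`. -/
def Within {K₀ : Type} [Field K₀] [NumberField K₀] {r : ℕ}
    (V : ∀ (ℓ' : ℕ) [Fact ℓ'.Prime], GK K₀ →* Matrix.GeneralLinearGroup (Fin r) ℚ_[ℓ'])
    (H : Multiset ℕ) (t : ℝ) (v₀ : HeightOneSpectrum (𝓞 K₀)) : Prop :=
  ∃ (p : ℕ) (_ : Fact p.Prime), Ideal.absNorm v₀.asIdeal = p ∧
    ∀ (ℓ' : ℕ) [Fact ℓ'.Prime], p ≠ ℓ' → ∀ γ : GK K₀, IsFrob v₀ γ →
      ∀ τ : algebraicClosure ℚ (PadicAlgCl ℓ') →+* PadicAlgCl p,
        CloseTau (V ℓ' γ⁻¹ : Matrix (Fin r) (Fin r) ℚ_[ℓ']) τ H t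

/-- `v₀` has degree one, and for every prime `ℓ'` different from the residue characteristic `p = N v₀`
and every embedding `τ` of the field of algebraic numbers the Newton polygon of `V ℓ'` at `v₀` has the
slopes `H` (as in the starting file `CommonOrdinaryReduction`). -/
def Ordinary {K₀ : Type} [Field K₀] [NumberField K₀] {r : ℕ}
    (V : ∀ (ℓ' : ℕ) [Fact ℓ'.Prime], GK K₀ →* Matrix.GeneralLinearGroup (Fin r) ℚ_[ℓ'])
    (H : Multiset ℕ) (v₀ : HeightOneSpectrum (𝓞 K₀)) : Prop :=
  ∃ (p : ℕ) (_ : Fact p.Prime), Ideal.absNorm v₀.asIdeal = p ∧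
    ∀ (ℓ' : ℕ) [Fact ℓ'.Prime], p ≠ ℓ' → ∀ γ : GK K₀, IsFrob v₀ γ →
      ∀ τ : algebraicClosure ℚ (PadicAlgCl ℓ') →+* PadicAlgCl p,
        NewtonTau (V ℓ' γ⁻¹ : Matrix (Fin r) (Fin r) ℚ_[ℓ']) τ H

/-- `V` is a strictly compatible system over `K₀` with the Hodge slopes `H`, which becomes over `K` a
member of the class generated by the `A i`, with the coefficients `c`. -/
def InClass {K₀ K : Type} [Field K₀] [NumberField K₀] [Field K] [NumberField K] [Algebra K₀ K]
    {ℓ : ℕ} [Fact ℓ.Prime] {ι : Type} (A : ι → MotSystem K ℓ) {r : ℕ}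
    (V : ∀ (ℓ' : ℕ) [Fact ℓ'.Prime], GK K₀ →* Matrix.GeneralLinearGroup (Fin r) ℚ_[ℓ'])
    (H : Multiset ℕ) (c : Piece A → ℝ) : Prop :=
  ∃ (T : Finset ℕ) (F : HeightOneSpectrum (𝓞 K₀) → ℤ[X]), StrictlyCompatible T V F ∧ IsGen A T F H c

/-- For all embeddings `τ` of the algebraic closure of `K` into `ℚ̄_p`, over the place `v` with
`N v = p`, and all Frobenius elements `γ` for `τ`, the Newton polygons of the parts of the `A i` form
families for `γ`. -/
def FamilyAt {K : Type} [Field K] [NumberField K] {ℓ : ℕ} [Fact ℓ.Prime] {ι : Type}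
    (A : ι → MotSystem K ℓ) (v : HeightOneSpectrum (𝓞 K)) : Prop :=
  ∀ (p : ℕ) [Fact p.Prime], Ideal.absNorm v.asIdeal = p →
    ∀ (τ : AlgebraicClosure K →+* PadicAlgCl p) (Q : Ideal (𝓞 (AlgebraicClosure K))) (γ : GK K),
      MultSystem.IsOver Q v →
      (∀ x : 𝓞 (AlgebraicClosure K), x ∈ Q ↔ ‖τ (x : AlgebraicClosure K)‖ < 1) →
      (∀ x : 𝓞 (AlgebraicClosure K), γ • x - x ^ p ∈ Q) →
      ∀ i, IsFamily (A i) γ (newt (A i) v τ)

theorem result (K₀ K : Type) [Field K₀] [NumberField K₀] [Field K] [NumberField K] [Algebra K₀ K]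
    (ℓ : ℕ) [Fact ℓ.Prime] {ι : Type} [Fintype ι] (A : ι → MotSystem K ℓ)
    (χ : GK K →* (PadicAlgCl ℓ)ˣ) (S : Finset ℕ) (hA : ∀ i, (A i).IsMotive χ S) :
    -- 1. a set of places of `K` of density one, for all `V` in the class
    (∃ G : Set (HeightOneSpectrum (𝓞 K)), Tendsto (ratio fun v => v ∈ G) atTop (𝓝 1) ∧
      (∀ v ∈ G, FamilyAt A v) ∧
      ∀ (r : ℕ) (V : ∀ (ℓ' : ℕ) [Fact ℓ'.Prime], GK K₀ →* Matrix.GeneralLinearGroup (Fin r) ℚ_[ℓ'])
        (H : Multiset ℕ) (c : Piece A → ℝ), InClass A V H c →
        {v ∈ G | ¬ ∀ v₀ : HeightOneSpectrum (𝓞 K₀),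
          v.asIdeal.comap (algebraMap (𝓞 K₀) (𝓞 K)) = v₀.asIdeal → ∀ γ : GK K, IsFrob v γ →
            Within V H (bnd c fun i => defect (A i) γ) v₀}.Finite) ∧
    -- 2. sets of places of `K₀`, for all `V` in the class
    (∀ t : ι → ℝ, ∃ P : Set (HeightOneSpectrum (𝓞 K₀)),
      share A t / (Module.finrank K₀ K : ℝ) ≤ lowerDensity (fun v₀ => v₀ ∈ P) ∧
      ((∃ γ : GK K, ∀ i, defect (A i) γ ≤ t i) → 0 < share A t) ∧
      ∀ (r : ℕ) (V : ∀ (ℓ' : ℕ) [Fact ℓ'.Prime], GK K₀ →* Matrix.GeneralLinearGroup (Fin r) ℚ_[ℓ'])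
        (H : Multiset ℕ) (c : Piece A → ℝ), InClass A V H c →
        {v₀ ∈ P | ¬ Within V H (bnd c t) v₀}.Finite) ∧
    -- 3. the gap
    (∀ (r : ℕ) (V : ∀ (ℓ' : ℕ) [Fact ℓ'.Prime], GK K₀ →* Matrix.GeneralLinearGroup (Fin r) ℚ_[ℓ'])
      (H : Multiset ℕ) (b : ℝ) (v₀ : HeightOneSpectrum (𝓞 K₀)), Within V H b v₀ → b < 1 / 2 →
        Ordinary V H v₀) ∧
    -- 4. the orbit condition
    (∀ (i : ι) (γ : GK K), (A i).Admissible γ → defect (A i) γ = 0) ∧
    -- 5. explicit bounds
    (∀ (i : ι) (γ : GK K), (∃ σ k, (A i).Vertex σ k) →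
      (Even (A i).w → defect (A i) γ ≤ hodgeVar (A i) - 2) ∧
      (Odd (A i).w → defect (A i) γ ≤ hodgeVar (A i) - ((Module.finrank ℚ (A i).E : ℝ) + 1) / 4) ∧
      (Odd (A i).w → 4 ≤ (A i).n → defect (A i) γ ≤ hodgeVar (A i) - 1)) ∧
    -- 6. all generated motives have coefficients
    ∀ (T : Finset ℕ) (U : Obj K), Generated A T U → ∃ c : Piece A → ℝ, Gen A T U c := by
  have key : ∀ (r : ℕ)
      (V : ∀ (ℓ' : ℕ) [Fact ℓ'.Prime], GK K₀ →* Matrix.GeneralLinearGroup (Fin r) ℚ_[ℓ'])
      (F : HeightOneSpectrum (𝓞 K₀) → ℤ[X]) (H : Multiset ℕ) (c : Piece A → ℝ) (T : Finset ℕ),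
      StrictlyCompatible T V F → IsGen A T F H c → ∀ v, GoodPlace A S v →
      Ideal.absNorm v.asIdeal ∉ T → ∀ v₀ : HeightOneSpectrum (𝓞 K₀),
      v.asIdeal.comap (algebraMap (𝓞 K₀) (𝓞 K)) = v₀.asIdeal → ∀ γ : GK K, IsFrob v γ →
      ∀ t : ι → ℝ, (∀ i, defect (A i) γ ≤ t i) → Within V H (bnd c t) v₀ := by
    intro r V F H c T hV hF v hv hT v₀ h0 γ hγ t ht
    have e := under_norm v hv.1.1 v₀ h0
    have hN := close_good A χ S hA hF hv hT hγ v₀ h0 ht
    have hN' := hN
    obtain ⟨hp, -⟩ := hN
    have hv0 : MultSystem.IsDeg1 T v₀ := ⟨e ▸ hv.1.1, e ▸ hT⟩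
    refine ⟨Ideal.absNorm v₀.asIdeal, hp, rfl, ?_⟩
    intro ℓ' _ hne γ₀ hγ₀ τ
    exact closeTau_of _ τ _ _ (F v₀) (hV ℓ' v₀ hv0 hne γ₀ hγ₀) hN'
  refine ⟨⟨{v | GoodPlace A S v}, ?_, ?_, ?_⟩, ?_, ?_, ?_, ?_, fun T U h => exists_gen h⟩
  · apply Pool.Agent.TH30.Ord.ratio_one
    exact dens_good A χ S hA
  · intro v hv p _ hpe τ Q γ hQ hτ hγ i
    subst hpe
    exact isFamily_newt A χ S hA hv hQ rfl hτ hγ i
  · rintro r V H c ⟨T, F, hV, hF⟩
    refine (finite_norm_mem (K := K) T).subset ?_
    rintro v ⟨hv, hno⟩
    by_contra hT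
    exact hno fun v₀ h0 γ hγ => key r V F H c T hV hF v hv hT v₀ h0 γ hγ _ fun i => le_rfl
  · intro t
    refine ⟨{v₀ | ∃ v : HeightOneSpectrum (𝓞 K),
      v.asIdeal.comap (algebraMap (𝓞 K₀) (𝓞 K)) = v₀.asIdeal ∧ GoodAt A S t v},
      lower_goodAt A χ S hA t, share_pos A, ?_⟩
    rintro r V H c ⟨T, F, hV, hF⟩
    refine (finite_norm_mem (K := K₀) T).subset ?_
    rintro v₀ ⟨⟨v, h0, hv, γ, hγ, ht⟩, hno⟩
    by_contra hT
    have hT' : Ideal.absNorm v.asIdeal ∉ T := by
      rw [← under_norm v hv.1.1 v₀ h0]
      exact hT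
    exact hno (key r V F H c T hV hF v hv hT' v₀ h0 γ hγ t ht)
  · rintro r V H b v₀ ⟨p, hp, hpe, h⟩ hb
    refine ⟨p, hp, hpe, ?_⟩
    intro ℓ' _ hne γ hγ τ
    obtain ⟨e, he, hc⟩ := h ℓ' hne γ hγ τ
    exact ⟨e, he, close_half hc hb⟩
  · intro i γ hγ
    exact defect_adm (hA i).isHodge hγ
  · intro i γ hex
    exact ⟨fun hw => defect_even (hA i).isHodge γ hex hw, fun hw => defect_odd γ hex hw,
      fun hw hn => defect_four γ hex hw hn⟩

end Pool.Agent.Results.MP_17d720_ag.VarianceDefect
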